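import Pool.Agent.N625.PT.D

/-!
# Correlations of the divisor functions with a power saving, for almost all shifts in random families with exchangeable blocks

Definitions used: from the starting file `Pool.Agent.Results.MP_122e00_nt.PowerSavingShifts`: the divisor functions `d`,
the sums `D`, the Ramanujan sums `ram`, the densities `κ`, the singular series `𝔖`, `Density`, `G`, `main`.

Method: the exponential sum over the ends of a word is bounded by the potential of its beginning times a power of a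
number `< 1`; the exponent is the number of the places where the frequency is far from the integers. So the Fourier
transform of the random integer is smaller than a negative power of `N` at all but a small power of `N` of the
frequencies, and the spectral criterion of the starting file `SparseRandomShifts` applies.
-/

set_option autoImplicit false

namespace Pool.Agent.Results.MP_122e00_nt.ExchangeableShifts

open Finset Polynomial
open Pool.Agent.Results.MP_122e00_nt.PowerSavingShifts (D ram κ 𝔖 Density G main)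

/-- For ALL `x ≤ N`: `D_r(x; h)` is the main term up to `N ^ (1 - θ)` and, if `|h| ≤ N ^ (1 - η)`, it is `x T_h(log x)` up
to `N ^ (1 - θ) + N ^ (1 - η / 4)`. -/
def Asymp (r N : ℕ) (P : ℕ → ℝ[X]) (T : ℤ → ℝ[X]) (θ η : ℝ) (h : ℤ) : Prop := ∀ x : ℕ, x ≤ N →
  |D r x h - main P x h| ≤ (N : ℝ) ^ (1 - θ) ∧
    ((|h| : ℝ) ≤ (N : ℝ) ^ (1 - η) → |D r x h - x * (T h).eval (Real.log x)| ≤ (N : ℝ) ^ (1 - θ) + (N : ℝ) ^ (1 - η / 4))

/-- The probability, for the distribution `μ` on the words of `k` digits (the integers `v < b ^ k`), that the word begins with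
the `i` digits of `u < b ^ i`. -/
noncomputable def begins (b k : ℕ) (μ : ℕ → ℝ) (i u : ℕ) : ℝ := ∑ w ∈ range (b ^ (k - i)), μ (u * b ^ (k - i) + w)

/-- `p` is a probability on the words of `k` digits in base `b`, read as integers `v < b ^ k`. There is another probability
`μ` with `p ≤ k ^ T μ` such that after every beginning `u` two different blocks `a`, `a'` of `L` digits can be exchanged:
`p (u a w) = r p (u a' w)` for all endings `w`, with a factor `r` between `η` and `1 / η` which does not depend on `w`; and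
given the beginning `u`, each of the two blocks comes next with a probability of at least `η` in the distribution `μ`.
(For `T = 0` one has `μ = p`. For the uniform distribution on a set of words `r` is `1`.) -/
structure Exchangeable (b L : ℕ) (η : ℝ) (T k : ℕ) (p : ℕ → ℝ) : Prop where
  nonneg : ∀ v, 0 ≤ p v
  sum : ∑ v ∈ range (b ^ k), p v = 1
  dominated : ∃ μ : ℕ → ℝ, (∀ v, 0 ≤ μ v) ∧ ∑ v ∈ range (b ^ k), μ v = 1 ∧ (∀ v < b ^ k, p v ≤ (k : ℝ) ^ T * μ v) ∧
    ∀ i u : ℕ, i + L ≤ k → u < b ^ i → ∃ (a a' : ℕ) (r : ℝ), a < a' ∧ a' < b ^ L ∧ η ≤ r ∧ η * r ≤ 1 ∧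
      (∀ w < b ^ (k - (i + L)), p ((b ^ L * u + a) * b ^ (k - (i + L)) + w) = r * p ((b ^ L * u + a') * b ^ (k - (i + L)) + w)) ∧
      η * begins b k μ i u ≤ begins b k μ (i + L) (b ^ L * u + a) ∧
      η * begins b k μ i u ≤ begins b k μ (i + L) (b ^ L * u + a')

lemma begins_sum (b k : ℕ) (μ : ℕ → ℝ) (i u : ℕ) (hi : i < k) :
    ∑ a ∈ range b, begins b k μ (i + 1) (b * u + a) = begins b k μ i u := by
  unfold begins
  obtain ⟨n, hn⟩ : ∃ n, k - i = n + 1 := ⟨k - i - 1, by omega⟩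
  have h1 : k - (i + 1) = n := by omega
  rw [h1, hn, pow_succ, mul_comm (b ^ n) b, Pool.Agent.N625.PT.sum_blocks b (b ^ n)]
  apply sum_congr rfl
  intro a _
  apply sum_congr rfl
  intro w _
  congr 1
  ring

lemma flex_of {b L T k : ℕ} {η : ℝ} {p : ℕ → ℝ} (hp : Exchangeable b L η T k p) : Pool.Agent.N625.PT.Flex b L η T k p := by
  obtain ⟨h0, h1, μ, m0, m1, m2, m3⟩ := hp
  have hT : (0 : ℝ) ≤ (k : ℝ) ^ T := by positivity
  have hb0 : ∀ i u, 0 ≤ begins b k μ i u := fun i u => sum_nonneg fun w _ => m0 _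
  refine ⟨h0, h1, fun i u => (k : ℝ) ^ T * begins b k μ i u, fun i u => mul_nonneg hT (hb0 i u), ?_, ?_, ?_, ?_⟩
  · intro v hv
    refine (m2 v hv).trans (le_of_eq ?_)
    unfold begins
    simp
  · intro i hi u _
    simp only
    rw [← mul_sum, begins_sum b k μ i u hi]
  · simp only
    have : begins b k μ 0 0 = 1 := by
      unfold begins
      simpa using m1
    rw [this, mul_one]
  · intro i u hi hu
    obtain ⟨a, a', r, q1, q2, q3, q4, q5, q6, q7⟩ := m3 i u hi hu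
    refine ⟨a, a', r, q1, q2, q3, q4, q5, ?_, ?_⟩
    · simp only
      calc η * ((k : ℝ) ^ T * begins b k μ i u) = (k : ℝ) ^ T * (η * begins b k μ i u) := by ring
        _ ≤ _ := mul_le_mul_of_nonneg_left q6 hT
    · simp only
      calc η * ((k : ℝ) ^ T * begins b k μ i u) = (k : ℝ) ^ T * (η * begins b k μ i u) := by ring
        _ ≤ _ := mul_le_mul_of_nonneg_left q7 hT

open Classical in
/-- **Divisor correlations with a power saving for almost all shifts in random families with exchangeable blocks.** Let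
`r ≥ 2`. There are polynomials `P_q` (`q ≥ 1`) and `T_h` (`h ≠ 0`) with the following properties.

(0) As in the starting files: `P_q` is the density of `d_r(n) e(b n / q)`, `(b, q) = 1`, with a power saving; for `h ≠ 0` the
series `G_h(u, v) = ∑ c_q(h) P_q(u) P_q(v)` satisfies `T_h(u) + T_h'(u) = G_h(u, u)`, and `T_h` has degree `2 r - 2` and
leading coefficient `𝔖_r(h) / ((r - 1)!) ^ 2`.

(1) Let `b ≥ 2`, `L ≥ 1` and `0 < ν ≤ 1`. There is `θ > 0` such that for all `t`, every integer `μ ≠ 0`, every `B`, every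
`0 < η ≤ 1`, every large `k`, every `N` with `b ^ k ≤ N ≤ b ^ ((1 + θ) k)`, EVERY integer `c` with `|c| ≤ B N` and EVERY
exchangeable distribution `p` on the integers `0 ≤ v < b ^ k` (with the parameters `L`, `ν`, `t`) the following holds: with a
probability of at least `1 - N ^ (-θ)` the shift `h = c + μ v` is zero or satisfies, for ALL `x ≤ N`:
`D_r(x; h) = ∑ G_h(log n, log(n + h)) + O(N ^ (1 - θ))` (the sum over `n ≤ x` with `n + h ≥ 1`) and, if
`|h| ≤ N ^ (1 - η)`, `D_r(x; h) = x T_h(log x) + O(N ^ (1 - θ) + N ^ (1 - η / 4))`, with implied constants `1`. -/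
theorem result (r : ℕ) (hr : 2 ≤ r) : ∃ (P : ℕ → ℝ[X]) (T : ℤ → ℝ[X]),
    (Density r P ∧ ∀ q, 1 ≤ q → (P q).natDegree = r - 1 ∧ (P q).leadingCoeff = κ (r - 1) q / ((r - 1).factorial : ℝ)) ∧
    (∀ h : ℤ, h ≠ 0 → (∀ u v : ℝ, Summable (fun q : ℕ => (ram (q + 1) h : ℝ) * ((P (q + 1)).eval u * (P (q + 1)).eval v))) ∧
      (∀ u : ℝ, (T h).eval u + (derivative (T h)).eval u = G P h u u) ∧
      (T h).natDegree = 2 * r - 2 ∧ (T h).leadingCoeff = 𝔖 r h / ((r - 1).factorial : ℝ) ^ 2) ∧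
    ∀ b L : ℕ, 2 ≤ b → 1 ≤ L → ∀ ν : ℝ, 0 < ν → ν ≤ 1 →
      ∃ θ : ℝ, 0 < θ ∧ ∀ (t : ℕ) (μ : ℤ), μ ≠ 0 → ∀ (B : ℕ) (η : ℝ), 0 < η → η ≤ 1 →
        ∃ k₀ : ℕ, ∀ k : ℕ, k₀ ≤ k → ∀ N : ℕ, b ^ k ≤ N → (N : ℝ) ≤ (b : ℝ) ^ ((1 + θ) * k) → ∀ c : ℤ, |c| ≤ B * N →
          ∀ p : ℕ → ℝ, Exchangeable b L ν t k p →
            ∑ v ∈ range (b ^ k), (if c + μ * (v : ℕ) = 0 ∨ Asymp r N P T θ η (c + μ * (v : ℕ)) then 0 else p v) ≤
              (N : ℝ) ^ (-θ) := by
  classical
  obtain ⟨P, T, h0, h1, ⟨θc, hθc, C', hcrit⟩, -, -⟩ := Pool.Agent.Results.MP_122e00_nt.SparseRandomShifts.result r hr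
  refine ⟨P, T, ⟨h0.1, h0.2.1⟩, h1, fun b L hb hL ν hν hν1 => ?_⟩
  obtain ⟨θ1, hθ1, hθ11, hf1⟩ := Pool.Agent.N625.PT.few_flex b L hb hL ν hν hν1 θc hθc
  obtain ⟨θ₃, hθ₃⟩ : ∃ θ₃, θ₃ = min θc θ1 := ⟨_, rfl⟩
  have hθ₃0 : 0 < θ₃ := by rw [hθ₃]; exact lt_min hθc hθ1
  have hθ₃c : θ₃ ≤ θc := by rw [hθ₃]; exact min_le_left _ _
  have hθ₃1 : θ₃ ≤ θ1 := by rw [hθ₃]; exact min_le_right _ _
  refine ⟨θ₃ / 16, by positivity, fun t μ hμ B₀ η hη hη1 => ?_⟩
  obtain ⟨k1, hk1⟩ := hf1 t μ hμ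
  obtain ⟨N₀, hN₀⟩ := Pool.Agent.R501.SP.crit_pow r P T θc C' hcrit θ₃ hθ₃0 hθ₃c (B₀ + μ.natAbs) η hη hη1
  refine ⟨k1 + N₀ + 1, fun k hk N hN1 hN2 c hc p hp => ?_⟩
  have hkN : k ≤ N := (Nat.lt_pow_self (by omega)).le.trans hN1
  have hNr : (1 : ℝ) ≤ N := by exact_mod_cast (by omega : 1 ≤ N)
  have hbr : (1 : ℝ) ≤ b := by exact_mod_cast (by omega : 1 ≤ b)
  have hN2' : (N : ℝ) ≤ (b : ℝ) ^ ((1 + θ1) * k) := by
    refine hN2.trans (Real.rpow_le_rpow_of_exponent_le hbr ?_)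
    apply mul_le_mul_of_nonneg_right _ (Nat.cast_nonneg _)
    linarith
  have h3 := hk1 k (by omega) N hN1 hN2' p (flex_of hp) c
  have hfew := Pool.Agent.R501.SP.few_mono _ _ N _ _ _ (Real.rpow_le_rpow_of_exponent_le hNr (by linarith : -θ1 ≤ -θ₃)) h3
  have key := hN₀ N (by omega) {v // v ∈ range (b ^ k)} (fun v => p v.1) (fun v => c + μ * (v.1 : ℕ)) (fun v => hp.nonneg _)
    (by rw [Finset.sum_coe_sort (range (b ^ k)) p]; exact hp.sum) (by
      intro v
      have h4 : v.1 < b ^ k := mem_range.1 v.2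
      have h6 : ((v.1 : ℕ) : ℤ) ≤ N := by exact_mod_cast h4.le.trans hN1
      calc |c + μ * (v.1 : ℕ)| ≤ |c| + |μ * (v.1 : ℕ)| := abs_add_le _ _
        _ = |c| + |μ| * (v.1 : ℕ) := by rw [abs_mul, abs_of_nonneg (Int.natCast_nonneg _)]
        _ ≤ B₀ * N + |μ| * N := add_le_add hc (mul_le_mul_of_nonneg_left h6 (abs_nonneg _))
        _ = _ := by push_cast; ring) hfew
  refine le_trans ?_ key
  rw [sum_filter, Finset.sum_coe_sort (range (b ^ k)) (fun v : ℕ => if c + μ * (v : ℕ) ≠ 0 ∧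
    ¬ Pool.Agent.Results.MP_122e00_nt.SparseRandomShifts.Asymp r N P T ((N : ℝ) ^ (1 - θ₃ / 16)) η (c + μ * (v : ℕ)) then p v else 0)]
  apply sum_le_sum
  intro v _
  by_cases h : c + μ * (v : ℕ) = 0 ∨ Asymp r N P T (θ₃ / 16) η (c + μ * (v : ℕ))
  · rw [if_pos h]
    split_ifs
    · exact hp.nonneg _
    · exact le_rfl
  · rw [if_neg h]
    push Not at h
    rw [if_pos ⟨h.1, fun hg => h.2 hg⟩]

end Pool.Agent.Results.MP_122e00_nt.ExchangeableShifts
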