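import Pool.Agent.N193.PS.Few
import Pool.Agent.N193.PS.Gp

/-!
# Correlations of the divisor functions with a power saving, for almost all shifts among the values of functions of
non-integral index

Definitions used: from the starting file `Pool.Agent.Results.MP_122e00_nt.PowerSavingShifts`: the divisor functions `d`,
the sums `D`, the Ramanujan sums `ram`, the densities `κ`, the singular series `𝔖`, `Density`, `G`, `main`.

From Mathlib: `ContDiffAt ℝ ⊤`: infinitely differentiable at a point; `iteratedDeriv m f`: the derivative of order `m`;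
`⌊y⌋₊`: the integer part of `y`, and `0` for `y < 0`.

Method: the characteristic function of the integer part of `f n` is small at all frequencies which are not close to
integers (van der Corput differencing and the inequality of Kusmin and Landau on dyadic blocks for all orders of
differencing, a discrete Fejer kernel for the passage to integer parts), and the values are not concentrated on short
intervals. So the characteristic function
is larger than a small negative power of `N` only near few fractions, and the spectral criterion of the starting file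
`SparseRandomShifts` applies.
-/

set_option autoImplicit false

namespace Pool.Agent.Results.MP_122e00_nt.NonIntegralOrderShifts

open Finset Filter Polynomial
open Pool.Agent.Results.MP_122e00_nt.PowerSavingShifts (D ram κ 𝔖 Density G main)

/-- `f` is smoothly varying of index `c`: it is infinitely differentiable and positive for large arguments, and
`t ^ m f⁽ᵐ⁾(t) / f(t) → c (c - 1) ... (c - m + 1)` for every `m`. -/
def SmoothlyVarying (c : ℝ) (f : ℝ → ℝ) : Prop :=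
  (∃ t₀ : ℝ, ∀ t > t₀, ContDiffAt ℝ ((⊤ : ℕ∞) : WithTop ℕ∞) f t ∧ 0 < f t) ∧
  ∀ m : ℕ, Tendsto (fun t => t ^ m * iteratedDeriv m f t / f t) atTop (nhds (∏ i ∈ range m, (c - i)))

/-- For ALL `x ≤ N`: `D_r(x; h)` is the main term up to `N ^ (1 - θ)` and, if `|h| ≤ N ^ (1 - η)`, it is `x T_h(log x)` up
to `N ^ (1 - θ) + N ^ (1 - η / 4)`. -/
def Asymp (r N : ℕ) (P : ℕ → ℝ[X]) (T : ℤ → ℝ[X]) (θ η : ℝ) (h : ℤ) : Prop := ∀ x : ℕ, x ≤ N →
  |D r x h - main P x h| ≤ (N : ℝ) ^ (1 - θ) ∧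
    ((|h| : ℝ) ≤ (N : ℝ) ^ (1 - η) → |D r x h - x * (T h).eval (Real.log x)| ≤ (N : ℝ) ^ (1 - θ) + (N : ℝ) ^ (1 - η / 4))

open Classical in
/-- Let `r ≥ 2`. There are polynomials `P_q` (`q ≥ 1`) and `T_h` (`h ≠ 0`) with the following properties.

**(0)** As in the starting file: `P_q` is the density of `d_r(n) e(b n / q)`, `(b, q) = 1`, with a power saving; for `h ≠ 0`
the series `G_h(u, v) = ∑ c_q(h) P_q(u) P_q(v)` converges absolutely, `y T_h(log y)` has the derivative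
`G_h(log y, log y)`, and `T_h` has degree `2 r - 2` and leading coefficient `𝔖_r(h) / ((r - 1)!) ^ 2`.

**(1)** Let `f` be smoothly varying of an index `c > 0` which is not an integer. There is `θ > 0` such that for all `μ ≠ 0`,
`B` and `0 < η ≤ 1` the following holds. Let `N` be large, let `y` be such that `f n ≤ N` for the integers `1 ≤ n ≤ y` and
`f y ≥ N ^ (1 - θ)`, and let `|c₀| ≤ B N`. For all the integers `1 ≤ n ≤ y`, with at most `y N ^ (- θ)` exceptions, the shift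
`h = c₀ + μ ⌊f n⌋` is `0` or satisfies for ALL `x ≤ N`: the sum `D_r(x; h)` of `d_r(m) d_r(m + h)`, `m ≤ x`, `m + h ≥ 1`,
is its main term up to `N ^ (1 - θ)` and, if `|h| ≤ N ^ (1 - η)`, it is `x T_h(log x)` up to `N ^ (1 - θ) + N ^ (1 - η / 4)`.

**(2)** Part (1) applies to all the functions `f t = ∑ a z t ^ z.1 (log t) ^ z.2` (finite sums) with a leading term `z₀`
whose coefficient is positive and whose exponent `c = z₀.1` is positive and not an integer; for example to `n ^ c`. -/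
theorem result (r : ℕ) (hr : 2 ≤ r) : ∃ (P : ℕ → ℝ[X]) (T : ℤ → ℝ[X]),
    (Density r P ∧ ∀ q, 1 ≤ q → (P q).natDegree = r - 1 ∧ (P q).leadingCoeff = κ (r - 1) q / ((r - 1).factorial : ℝ)) ∧
    (∀ h : ℤ, h ≠ 0 → (∀ u v : ℝ, Summable (fun q : ℕ => (ram (q + 1) h : ℝ) * ((P (q + 1)).eval u * (P (q + 1)).eval v))) ∧
      (∀ u : ℝ, (T h).eval u + (derivative (T h)).eval u = G P h u u) ∧
      (T h).natDegree = 2 * r - 2 ∧ (T h).leadingCoeff = 𝔖 r h / ((r - 1).factorial : ℝ) ^ 2) ∧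
    (∀ (c : ℝ) (f : ℝ → ℝ), 0 < c → (∀ m : ℕ, c ≠ m) → SmoothlyVarying c f →
      ∃ θ : ℝ, 0 < θ ∧ ∀ μ : ℤ, μ ≠ 0 → ∀ (B : ℕ) (η : ℝ), 0 < η → η ≤ 1 → ∃ N₀ : ℕ, ∀ N : ℕ, N₀ ≤ N → ∀ y : ℕ,
      (∀ n ∈ Icc 1 y, f n ≤ N) → (N : ℝ) ^ (1 - θ) ≤ f y → ∀ c₀ : ℤ, |c₀| ≤ B * N →
        (((Icc 1 y).filter fun n : ℕ => ¬ (c₀ + μ * (⌊f n⌋₊ : ℕ) = 0 ∨
          Asymp r N P T θ η (c₀ + μ * (⌊f n⌋₊ : ℕ)))).card : ℝ) ≤ y * (N : ℝ) ^ (-θ)) ∧
    (∀ (F : Finset (ℝ × ℝ)) (a : ℝ × ℝ → ℝ) (z₀ : ℝ × ℝ), z₀ ∈ F → 0 < a z₀ →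
      (∀ z ∈ F, z ≠ z₀ → z.1 < z₀.1 ∨ z.1 = z₀.1 ∧ z.2 < z₀.2) →
      SmoothlyVarying z₀.1 (fun t => ∑ z ∈ F, a z * t ^ z.1 * Real.log t ^ z.2)) := by
  classical
  obtain ⟨P, T, h0, h1, ⟨θc, hθc, C', hcrit⟩, -, -⟩ := Pool.Agent.Results.MP_122e00_nt.SparseRandomShifts.result r hr
  refine ⟨P, T, ⟨h0.1, h0.2.1⟩, h1, fun c f hc hn hf => ?_, fun F a z₀ h1 h2 h3 => Pool.Agent.N193.PS.gp_sv F a z₀ h1 h2 h3⟩
  have hsv := Pool.Agent.N193.PS.sv_of c hc hn f hf
  obtain ⟨θ1, hθ1, hθ11, hf1⟩ := hsv.few θc hθc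
  obtain ⟨θ₃, hθ₃⟩ : ∃ θ₃, θ₃ = min θc θ1 := ⟨_, rfl⟩
  have hθ₃0 : 0 < θ₃ := by rw [hθ₃]; exact lt_min hθc hθ1
  have hθ₃c : θ₃ ≤ θc := by rw [hθ₃]; exact min_le_left _ _
  have hθ₃1 : θ₃ ≤ θ1 := by rw [hθ₃]; exact min_le_right _ _
  refine ⟨θ₃ / 16, by positivity, fun μ hμ B₀ η hη hη1 => ?_⟩
  obtain ⟨k1, hk1⟩ := hf1 μ hμ
  obtain ⟨N₀, hN₀⟩ := Pool.Agent.R501.SP.crit_pow r P T θc C' hcrit θ₃ hθ₃0 hθ₃c (B₀ + μ.natAbs) η hη hη1
  refine ⟨k1 + N₀ + 1, fun N hN y hup hlow c₀ hc₀ => ?_⟩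
  have hNr : (1 : ℝ) ≤ N := by exact_mod_cast (by omega : 1 ≤ N)
  have hval : ∀ n : ℕ, Pool.Agent.N193.PS.val (fun m => iteratedDeriv m f) n = ⌊f n⌋₊ := by
    intro n
    unfold Pool.Agent.N193.PS.val
    simp only [iteratedDeriv_zero]
  obtain ⟨hy1, hfew0⟩ := hk1 N (by omega) y (by
    rw [iteratedDeriv_zero]
    refine le_trans (Real.rpow_le_rpow_of_exponent_le hNr ?_) hlow
    linarith)
  have hy0 : (0 : ℝ) < y := by exact_mod_cast hy1
  have hfew := Pool.Agent.R501.SP.few_mono _ _ N _ _ _ (Real.rpow_le_rpow_of_exponent_le hNr (by linarith : -θ1 ≤ -θ₃))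
    (hfew0 c₀)
  have key := hN₀ N (by omega) {n // n ∈ Icc 1 y} (fun _ => 1 / (y : ℝ))
    (fun n => c₀ + μ * (Pool.Agent.N193.PS.val (fun m => iteratedDeriv m f) n.1 : ℕ)) (fun _ => by positivity)
    (by
      rw [Finset.sum_const, Finset.card_univ, Fintype.card_coe, Nat.card_Icc, nsmul_eq_mul, Nat.add_sub_cancel]
      field_simp) (by
      intro n
      have h4 : f n.1 ≤ N := hup n.1 n.2
      have h6 : ((Pool.Agent.N193.PS.val (fun m => iteratedDeriv m f) n.1 : ℕ) : ℤ) ≤ N := by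
        rw [hval]
        exact_mod_cast (Nat.floor_le_of_le h4)
      calc |c₀ + μ * (Pool.Agent.N193.PS.val (fun m => iteratedDeriv m f) n.1 : ℕ)|
          ≤ |c₀| + |μ * (Pool.Agent.N193.PS.val (fun m => iteratedDeriv m f) n.1 : ℕ)| := abs_add_le _ _
        _ = |c₀| + |μ| * (Pool.Agent.N193.PS.val (fun m => iteratedDeriv m f) n.1 : ℕ) := by
            rw [abs_mul, abs_of_nonneg (Int.natCast_nonneg _)]
        _ ≤ B₀ * N + |μ| * N := add_le_add hc₀ (mul_le_mul_of_nonneg_left h6 (abs_nonneg _))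
        _ = _ := by push_cast; ring) hfew
  rw [sum_filter, Finset.sum_coe_sort (Icc 1 y) (fun n : ℕ => if c₀ + μ * (Pool.Agent.N193.PS.val (fun m => iteratedDeriv m f) n : ℕ) ≠ 0 ∧
    ¬ Pool.Agent.Results.MP_122e00_nt.SparseRandomShifts.Asymp r N P T ((N : ℝ) ^ (1 - θ₃ / 16)) η
      (c₀ + μ * (Pool.Agent.N193.PS.val (fun m => iteratedDeriv m f) n : ℕ)) then 1 / (y : ℝ) else 0)] at key
  simp only [hval] at key
  have hle : (((Icc 1 y).filter fun n : ℕ => ¬ (c₀ + μ * (⌊f n⌋₊ : ℕ) = 0 ∨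
      Asymp r N P T (θ₃ / 16) η (c₀ + μ * (⌊f n⌋₊ : ℕ)))).card : ℝ) * (1 / (y : ℝ)) ≤ (N : ℝ) ^ (-(θ₃ / 16)) := by
    refine le_trans ?_ key
    rw [← nsmul_eq_mul, ← sum_const, sum_filter]
    apply sum_le_sum
    intro n _
    by_cases h : c₀ + μ * (⌊f n⌋₊ : ℕ) = 0 ∨ Asymp r N P T (θ₃ / 16) η (c₀ + μ * (⌊f n⌋₊ : ℕ))
    · rw [if_neg (not_not.2 h)]
      split_ifs
      · positivity
      · exact le_rfl
    · rw [if_pos h]
      push Not at h
      rw [if_pos ⟨h.1, fun hg => h.2 hg⟩]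
  rw [mul_one_div, div_le_iff₀ hy0, mul_comm] at hle
  exact hle

end Pool.Agent.Results.MP_122e00_nt.NonIntegralOrderShifts
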