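import Pool.Agent.N384.MQ.FewM
import Pool.Agent.N384.MQ.Gen

/-!
# Correlations of the divisor functions with a power saving, for almost all shifts in families of residues with small Fourier
coefficients

Definitions used: from the starting file `Pool.Agent.Results.MP_122e00_nt.PowerSavingShifts`: the divisor functions `d`,
the sums `D`, the Ramanujan sums `ram`, the densities `κ`, the singular series `𝔖`, `Density`, `G`, `main`.

From Mathlib: `ZMod.stdAddChar`: the additive character `j ↦ exp (2 π i j / q)` of the integers modulo `q`; `ZMod.val`: the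
least residue.

Method: the least residues of a family of residues modulo `q` with small Fourier coefficients have small exponential sums at
all real frequencies which are not close to integers. So their characteristic function is large only near few fractions, and
the spectral criterion of the starting file `SparseRandomShifts` applies. Examples: a lemma of Ajtai, Iwaniec, Komlos,
Pintz and Szemeredi on quotients by small primes, the Stepanov type lemma of Heath-Brown and Konyagin for subgroups (library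
`H435R3.HBK`, `N825.FC`), and Weyl sums without losses (library `H373R2.NB`).
-/

set_option autoImplicit false

namespace Pool.Agent.Results.MP_122e00_nt.ResidueFamilies

open Finset Filter Polynomial
open Pool.Agent.Results.MP_122e00_nt.PowerSavingShifts (D ram κ 𝔖 Density G main)

/-- The Fourier coefficients of the residues `y i`, `i ∈ s`, modulo `q` at the nonzero frequencies are at most
`η` times the number of the residues: `|∑ i ∈ s, e(h y_i / q)| ≤ η |s|` for all `h ≠ 0` modulo `q`. -/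
def Flat {ι : Type} (q : ℕ) [NeZero q] (η : ℝ) (s : Finset ι) (y : ι → ZMod q) : Prop :=
  ∀ h : ZMod q, h ≠ 0 → ‖∑ i ∈ s, (ZMod.stdAddChar (h * y i) : ℂ)‖ ≤ η * s.card

/-- For ALL `x ≤ N`: `D_r(x; h)` is the main term up to `E` and, if `|h| ≤ N ^ (1 - η)`, it is `x T_h(log x)` up
to `E + N ^ (1 - η / 4)`. -/
def Asymp (r N : ℕ) (P : ℕ → ℝ[X]) (T : ℤ → ℝ[X]) (E η : ℝ) (h : ℤ) : Prop := ∀ x : ℕ, x ≤ N →
  |D r x h - main P x h| ≤ E ∧
    ((|h| : ℝ) ≤ (N : ℝ) ^ (1 - η) → |D r x h - x * (T h).eval (Real.log x)| ≤ E + (N : ℝ) ^ (1 - η / 4))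

open Classical in
/-- Let `r ≥ 2`. There are polynomials `P_q` (`q ≥ 1`) and `T_h` (`h ≠ 0`) with the following properties.

**(0)** As in the starting file: `P_q` is the density of `d_r(n) e(b n / q)`, `(b, q) = 1`, with a power saving; for `h ≠ 0`
the series `G_h(u, v) = ∑ c_q(h) P_q(u) P_q(v)` converges absolutely, `y T_h(log y)` has the derivative
`G_h(log y, log y)`, and `T_h` has degree `2 r - 2` and leading coefficient `𝔖_r(h) / ((r - 1)!) ^ 2`.

**(1)** There are `θ > 0` and `C` such that for all `μ ≠ 0`, `B` and `0 < η ≤ 1` and all large `N` the following holds. Let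
`N ^ (1 - θ) ≤ q ≤ N`, `N ^ (- θ) ≤ ρ ≤ 1`, `|c₀| ≤ B N`, and let `y i`, `i ∈ s`, be any finite family of residues modulo `q`
whose Fourier coefficients at the nonzero frequencies are at most `ρ |s| / log ^ 2 N`. For all the `i ∈ s`, with at most
`ρ ^ (1 / 2) log ^ C N |s|` exceptions, the shift `h = c₀ + μ y_i` (with the least residue `0 ≤ y_i < q`) is `0` or satisfies
for ALL `x ≤ N`: the sum `D_r(x; h)` of `d_r(m) d_r(m + h)`, `m ≤ x`, `m + h ≥ 1`, is its main term up to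
`E = ρ ^ (1 / 8) N log ^ C N` and, if `|h| ≤ N ^ (1 - η)`, it is `x T_h(log x)` up to `E + N ^ (1 - η / 4)`. (For
`ρ = log ^ (- V) N` with a large `V` this is the asymptotic formula with an arbitrary power of a logarithm saved; for a small
power `ρ` of `N` it is the formula with a power saving.)

**(2)**, **(3)** Examples. All the Fourier coefficients at nonzero frequencies are at most `|s| / K` for the following families
of residues modulo primes `p` (all large primes in (2)), for ALL `K ≥ 1`: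
* the quotients `j / r` of the integers `0 ≤ j < S` by the primes `r ≤ R`, if `K log ^ 4 p ≤ R < p` and `R ^ 2 ≤ S`; thus
  (1) with `ρ = log ^ (- V) N` applies to such explicit sets with only `log ^ (3 V + 20) p` members;
* the cosets of all subgroups of the multiplicative group of an order of at least `5 p ^ (3/8) K ^ 3`;
* the residues `a b + g(a) + k(b)`, `a ∈ A`, `b ∈ B`, for arbitrary sets with `|A| |B| ≥ p K ^ 2` and arbitrary
  functions `g` and `k`;
* the values `f(n)`, `0 ≤ n < x`, of all integer polynomials of degree `d` whose leading coefficient is not divisible by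
  `p`, if `p ≥ C K ^ C` and `x ^ d ≥ C K ^ C p`, where `C` depends on `d`. -/
theorem result :
    (∀ r : ℕ, 2 ≤ r → ∃ (P : ℕ → ℝ[X]) (T : ℤ → ℝ[X]),
    (Density r P ∧ ∀ q, 1 ≤ q → (P q).natDegree = r - 1 ∧ (P q).leadingCoeff = κ (r - 1) q / ((r - 1).factorial : ℝ)) ∧
    (∀ h : ℤ, h ≠ 0 → (∀ u v : ℝ, Summable (fun q : ℕ => (ram (q + 1) h : ℝ) * ((P (q + 1)).eval u * (P (q + 1)).eval v))) ∧
      (∀ u : ℝ, (T h).eval u + (derivative (T h)).eval u = G P h u u) ∧
      (T h).natDegree = 2 * r - 2 ∧ (T h).leadingCoeff = 𝔖 r h / ((r - 1).factorial : ℝ) ^ 2) ∧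
    (∃ θ : ℝ, 0 < θ ∧ ∃ C : ℕ, ∀ μ : ℤ, μ ≠ 0 → ∀ (B : ℕ) (η : ℝ), 0 < η → η ≤ 1 → ∃ N₀ : ℕ, ∀ N : ℕ, N₀ ≤ N →
      ∀ (ι : Type) (q : ℕ) [NeZero q] (s : Finset ι) (y : ι → ZMod q) (ρ : ℝ), q ≤ N → (N : ℝ) ^ (1 - θ) ≤ q →
      (N : ℝ) ^ (-θ) ≤ ρ → ρ ≤ 1 → Flat q (ρ / Real.log N ^ 2) s y → ∀ c₀ : ℤ, |c₀| ≤ B * N →
        ((s.filter fun i => ¬ (c₀ + μ * ((y i).val : ℕ) = 0 ∨
          Asymp r N P T (ρ ^ (1 / 8 : ℝ) * N * Real.log N ^ C) η (c₀ + μ * ((y i).val : ℕ)))).card : ℝ) ≤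
          s.card * (ρ ^ (1 / 2 : ℝ) * Real.log N ^ C))) ∧
    (∃ P₀ : ℕ, ∀ p : ℕ, P₀ ≤ p → ∀ [Fact p.Prime] (K : ℝ), 1 ≤ K →
      (∀ R S : ℕ, K * Real.log p ^ 4 ≤ R → R < p → R ^ 2 ≤ S →
        Flat p (1 / K) (((Icc 1 R).filter Nat.Prime) ×ˢ range S)
          (fun z => ((z.2 : ℕ) : ZMod p) * ((z.1 : ℕ) : ZMod p)⁻¹)) ∧
      (∀ (H : Subgroup (ZMod p)ˣ) (s : Finset (ZMod p)ˣ), (∀ u, u ∈ s ↔ u ∈ H) →
        5 * (p : ℝ) ^ (3 / 8 : ℝ) * K ^ 3 ≤ s.card → ∀ x : ZMod p, x ≠ 0 → Flat p (1 / K) s (fun u => x * (u : ZMod p))) ∧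
      (∀ (A B : Finset (ZMod p)) (g k : ZMod p → ZMod p), (p : ℝ) * K ^ 2 ≤ A.card * B.card →
        Flat p (1 / K) (A ×ˢ B) (fun z => z.1 * z.2 + g z.1 + k z.2))) ∧
    (∀ d : ℕ, 1 ≤ d → ∃ C : ℕ, ∀ p : ℕ, ∀ [Fact p.Prime] (f : Polynomial ℤ), f.natDegree = d →
      ¬ (p : ℤ) ∣ f.leadingCoeff → ∀ K : ℝ, 1 ≤ K → C * K ^ C ≤ p → ∀ x : ℕ, C * K ^ C * p ≤ (x : ℝ) ^ d →
      Flat p (1 / K) (range x) (fun n => ((f.eval (n : ℤ) : ℤ) : ZMod p))) := by
  classical
  refine ⟨fun r hr => ?_, ?_, fun d hd => ?_⟩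
  · obtain ⟨P, T, h0, h1, ⟨θc, hθc, C', hcrit⟩, -, -⟩ := Pool.Agent.Results.MP_122e00_nt.SparseRandomShifts.result r hr
    refine ⟨P, T, ⟨h0.1, h0.2.1⟩, h1, θc / 4, by positivity, C', fun μ hμ B₀ η hη hη1 => ?_⟩
    obtain ⟨N₁, hN₁⟩ := Pool.Agent.N384.MQ.mq_few μ hμ (θc / 4) (by positivity)
    obtain ⟨N₀, hN₀⟩ := hcrit (B₀ + μ.natAbs) η hη hη1
    refine ⟨N₁ + N₀ + 1, fun N hN ι q _ s y ρ hqN hNq hρ hρ1 hf c₀ hc₀ => ?_⟩
    have hNr : (1 : ℝ) ≤ N := by exact_mod_cast (by omega : 1 ≤ N)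
    have hN0 : (0 : ℝ) < N := by linarith
    have hρ0 : 0 < ρ := lt_of_lt_of_le (by positivity) hρ
    rcases s.eq_empty_or_nonempty with rfl | hs
    · simp
    have hs0 : (0 : ℝ) < s.card := by exact_mod_cast hs.card_pos
    have hfew := hN₁ N (by omega) q hqN hNq ι s y ρ hs hρ hf c₀
    rw [show 4 * (θc / 4) = θc by ring] at hfew
    have key := hN₀ N (by omega) {i // i ∈ s} (fun _ => 1 / (s.card : ℝ))
      (fun i => c₀ + μ * ((y i.1).val : ℕ)) (fun _ => by positivity)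
      (by
        rw [Finset.sum_const, Finset.card_univ, Fintype.card_coe, nsmul_eq_mul]
        field_simp) (by
        intro i
        have h6 : (((y i.1).val : ℕ) : ℤ) ≤ N := by
          exact_mod_cast (ZMod.val_lt (y i.1)).le.trans hqN
        calc |c₀ + μ * ((y i.1).val : ℕ)|
            ≤ |c₀| + |μ * ((y i.1).val : ℕ)| := abs_add_le _ _
          _ = |c₀| + |μ| * ((y i.1).val : ℕ) := by
              rw [abs_mul, abs_of_nonneg (Int.natCast_nonneg _)]
          _ ≤ B₀ * N + |μ| * N := add_le_add hc₀ (mul_le_mul_of_nonneg_left h6 (abs_nonneg _))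
          _ = _ := by push_cast; ring) ρ
      ((Real.rpow_le_rpow_of_exponent_le hNr (by linarith)).trans hρ) hρ1 hfew
    rw [sum_filter, Finset.sum_coe_sort s (fun i => if c₀ + μ * ((y i).val : ℕ) ≠ 0 ∧
      ¬ Pool.Agent.Results.MP_122e00_nt.SparseRandomShifts.Asymp r N P T (ρ ^ (1 / 8 : ℝ) * N * Real.log N ^ C') η
        (c₀ + μ * ((y i).val : ℕ)) then 1 / (s.card : ℝ) else 0)] at key
    have hle : ((s.filter fun i => ¬ (c₀ + μ * ((y i).val : ℕ) = 0 ∨
        Asymp r N P T (ρ ^ (1 / 8 : ℝ) * N * Real.log N ^ C') η (c₀ + μ * ((y i).val : ℕ)))).card : ℝ) * (1 / (s.card : ℝ)) ≤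
        ρ ^ (1 / 2 : ℝ) * Real.log N ^ C' := by
      refine le_trans ?_ key
      rw [← nsmul_eq_mul, ← sum_const, sum_filter]
      apply sum_le_sum
      intro i _
      by_cases h : c₀ + μ * ((y i).val : ℕ) = 0 ∨ Asymp r N P T (ρ ^ (1 / 8 : ℝ) * N * Real.log N ^ C') η (c₀ + μ * ((y i).val : ℕ))
      · rw [if_neg (not_not.2 h)]
        split_ifs
        · positivity
        · exact le_rfl
      · rw [if_pos h]
        push Not at h
        rw [if_pos ⟨h.1, fun hg => h.2 hg⟩]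
    rw [mul_one_div, div_le_iff₀ hs0] at hle
    exact hle.trans (le_of_eq (mul_comm _ _))
  · obtain ⟨P₀, h0⟩ := Pool.Agent.N384.MQ.flatK_quot
    exact ⟨P₀, fun p hp _ K hK => ⟨fun R S => h0 p hp K hK R S,
      fun H s hs hc x hx => Pool.Agent.N384.MQ.flatK_coset p H s hs K hK hc x hx,
      fun A B g k hAB => Pool.Agent.N384.MQ.flatK_prod p A B g k K hK hAB⟩⟩
  · exact Pool.Agent.N384.MQ.flatK_poly d hd

end Pool.Agent.Results.MP_122e00_nt.ResidueFamilies
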