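import Pool.Agent.N469.PW.Div
import Pool.Agent.N469.TL.Fin

/-!
# Correlations of the divisor functions with a power saving, for all shifts near almost all smooth numbers

Definitions used: from the starting file `Pool.Agent.Results.MP_122e00_nt.PowerSavingShifts`: the divisor functions `d`,
the sums `D`, the Ramanujan sums `ram`, the densities `κ`, the singular series `𝔖`, `Density`, `G`, `main`.

Method: an elementary bound for the exponential sum over the integers composed of primes from a given set, with a power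
saving: the sum is smaller than the trivial bound by a negative power of `N` at all the frequencies which are not close to
rational numbers with denominators at most a small power of `N`. Then the spectral criterion of the starting file
`SparseRandomShifts` applies.
-/

set_option autoImplicit false

namespace Pool.Agent.Results.MP_122e00_nt.SmoothShifts

open Finset Polynomial
open Pool.Agent.Results.MP_122e00_nt.PowerSavingShifts (D ram κ 𝔖 Density G main)

/-- For ALL `x ≤ N`: `D_r(x; h)` is the main term up to `N ^ (1 - θ)` and, if `|h| ≤ N ^ (1 - η)`, it is `x T_h(log x)` up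
to `N ^ (1 - θ) + N ^ (1 - η / 4)`. -/
def Asymp (r N : ℕ) (P : ℕ → ℝ[X]) (T : ℤ → ℝ[X]) (θ η : ℝ) (h : ℤ) : Prop := ∀ x : ℕ, x ≤ N →
  |D r x h - main P x h| ≤ (N : ℝ) ^ (1 - θ) ∧
    ((|h| : ℝ) ≤ (N : ℝ) ^ (1 - η) → |D r x h - x * (T h).eval (Real.log x)| ≤ (N : ℝ) ^ (1 - θ) + (N : ℝ) ^ (1 - η / 4))

/-- The integers `1 ≤ v ≤ z` all of whose prime factors belong to `R`. -/
def composedOf (R : Finset ℕ) (z : ℕ) : Finset ℕ := (Icc 1 z).filter fun v => v.primeFactors ⊆ R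

/-- The `y`-smooth integers `1 ≤ v ≤ z`: the integers all of whose prime factors are at most `y`. -/
def smooth (y z : ℕ) : Finset ℕ := (Icc 1 z).filter fun v => ∀ p ∈ v.primeFactors, p ≤ y

open Classical in
/-- **Divisor correlations with a power saving for all shifts near almost all smooth numbers.** Let `r ≥ 2`. There are
polynomials `P_q` (`q ≥ 1`) and `T_h` (`h ≠ 0`) with the following properties.

(0) As in the starting files: `P_q` is the density of `d_r(n) e(b n / q)`, `(b, q) = 1`, with a power saving; for `h ≠ 0` the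
series `G_h(u, v) = ∑ c_q(h) P_q(u) P_q(v)` satisfies `T_h(u) + T_h'(u) = G_h(u, u)`, and `T_h` has degree `2 r - 2` and
leading coefficient `𝔖_r(h) / ((r - 1)!) ^ 2`.

For every `δ > 0` there is `θ > 0` such that for every integer `μ ≠ 0`, every `B`, every `0 < η ≤ 1`, every large `N`, all
`z` with `N ^ (1 - θ) ≤ z ≤ N`, all `1 ≤ y ≤ N ^ θ` and EVERY integer `c` with `|c| ≤ B N` the following holds.

(1) Let `R` be ANY set of primes which are at most `y`, with at least `y ^ (1 / 2 + δ) log N` elements. For all the integers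
`v ≤ z` composed of primes from `R`, up to a proportion of at most `N ^ (-θ)` of them, ALL the integers `h ≠ 0` with
`|h - (c + μ v)| ≤ N ^ θ` satisfy, for ALL `x ≤ N`: `D_r(x; h) = ∑ G_h(log n, log(n + h)) + O(N ^ (1 - θ))` (the sum over
`n ≤ x` with `n + h ≥ 1`) and, if `|h| ≤ N ^ (1 - η)`, `D_r(x; h) = x T_h(log x) + O(N ^ (1 - θ) + N ^ (1 - η / 4))`, with
implied constants `1`.

(2) In particular this holds for all the `y`-smooth integers `v ≤ z`, up to a proportion of at most `N ^ (-θ)` of them, if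
`y ≥ log ^ (2 + δ) N`. -/
theorem result (r : ℕ) (hr : 2 ≤ r) : ∃ (P : ℕ → ℝ[X]) (T : ℤ → ℝ[X]),
    (Density r P ∧ ∀ q, 1 ≤ q → (P q).natDegree = r - 1 ∧ (P q).leadingCoeff = κ (r - 1) q / ((r - 1).factorial : ℝ)) ∧
    (∀ h : ℤ, h ≠ 0 → (∀ u v : ℝ, Summable (fun q : ℕ => (ram (q + 1) h : ℝ) * ((P (q + 1)).eval u * (P (q + 1)).eval v))) ∧
      (∀ u : ℝ, (T h).eval u + (derivative (T h)).eval u = G P h u u) ∧
      (T h).natDegree = 2 * r - 2 ∧ (T h).leadingCoeff = 𝔖 r h / ((r - 1).factorial : ℝ) ^ 2) ∧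
    ∀ δ : ℝ, 0 < δ → ∃ θ : ℝ, 0 < θ ∧ ∀ μ : ℤ, μ ≠ 0 → ∀ (B : ℕ) (η : ℝ), 0 < η → η ≤ 1 →
      ∃ N₀ : ℕ, ∀ N : ℕ, N₀ ≤ N → ∀ z : ℕ, (N : ℝ) ^ (1 - θ) ≤ z → z ≤ N → ∀ y : ℕ, 1 ≤ y → (y : ℝ) ≤ (N : ℝ) ^ θ →
        ∀ c : ℤ, |c| ≤ B * N →
          (∀ R : Finset ℕ, (∀ p ∈ R, p.Prime ∧ p ≤ y) → (y : ℝ) ^ (1 / 2 + δ) * Real.log N ≤ R.card →
            (((composedOf R z).filter fun v : ℕ => ∃ h : ℤ, |((h - (c + μ * v) : ℤ) : ℝ)| ≤ (N : ℝ) ^ θ ∧ h ≠ 0 ∧
              ¬ Asymp r N P T θ η h).card : ℝ) ≤ ((composedOf R z).card : ℝ) * (N : ℝ) ^ (-θ)) ∧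
          (Real.log N ^ (2 + δ) ≤ y →
            (((smooth y z).filter fun v : ℕ => ∃ h : ℤ, |((h - (c + μ * v) : ℤ) : ℝ)| ≤ (N : ℝ) ^ θ ∧ h ≠ 0 ∧
              ¬ Asymp r N P T θ η h).card : ℝ) ≤ ((smooth y z).card : ℝ) * (N : ℝ) ^ (-θ)) := by
  classical
  obtain ⟨P, T, h0, h1, ⟨θc, hθc, C', hcrit⟩, -, -⟩ := Pool.Agent.Results.MP_122e00_nt.SparseRandomShifts.result r hr
  refine ⟨P, T, ⟨h0.1, h0.2.1⟩, h1, fun δ hδ => ?_⟩
  obtain ⟨δ', N1, hδ', hprimes⟩ := Pool.Agent.N469.SQ.PR_cond δ hδ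
  obtain ⟨θa, hθa, -, ha⟩ := Pool.Agent.N469.PW.div_core r P T θc hθc C' hcrit δ hδ
  obtain ⟨θb, hθb, -, hb⟩ := Pool.Agent.N469.PW.div_core r P T θc hθc C' hcrit δ' hδ'
  refine ⟨min θa θb, lt_min hθa hθb, fun μ hμ B η hη hη1 => ?_⟩
  obtain ⟨Na, hNa⟩ := ha (min θa θb) (lt_min hθa hθb) (min_le_left _ _) μ hμ B η hη hη1
  obtain ⟨Nb, hNb⟩ := hb (min θa θb) (lt_min hθa hθb) (min_le_right _ _) μ hμ B η hη hη1
  refine ⟨N1 + Na + Nb, fun N hN z hz hzN y hy hyN c hc => ⟨fun R hR hcard => ?_, fun hyl => ?_⟩⟩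
  · exact hNa N (by omega) R y z ⟨hR, hy, hyN, hcard, hzN, hz⟩ c hc _ _ (fun v hv => hv)
  · have := hNb N (by omega) (Pool.Agent.N469.SQ.PR y) y z ⟨fun p hp => Pool.Agent.N469.SQ.mem_PR.1 hp, hy, hyN,
      (hprimes N (by omega) y hyl).2, hzN, hz⟩ c hc (fun v : ℕ => ∃ h : ℤ, |((h - (c + μ * v) : ℤ) : ℝ)| ≤ (N : ℝ) ^ (min θa θb) ∧
        h ≠ 0 ∧ ¬ Asymp r N P T (min θa θb) η h) (fun v => inferInstance) (fun v hv => hv)
    have e : smooth y z = Pool.Agent.N469.SM.SS (Pool.Agent.N469.SQ.PR y) z := Pool.Agent.N469.TL.smooth_eq y z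
    rw [e]
    exact this

end Pool.Agent.Results.MP_122e00_nt.SmoothShifts
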